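import Pool.Agent.Q56.BR.Geo

/-!
# The rank inequality and conjecture B
-/

open CategoryTheory AlgebraicGeometry Finset

universe u v

set_option linter.unusedSectionVars false

namespace Pool.Agent.Q56.BR

open Pool.Agent.H914 Pool.Agent.H447 VarClass Obj WeilCohomology

variable {k : Type u} [Field k] {𝒱 : VarClass k} {ops : CycleOps 𝒱}
  {W : WeilCohomology.{u, v} ops} {X : 𝒱.Obj}

lemma mulLeft_pow_apply (ξ a : W.H X) (c : ℕ) :
    (LinearMap.mulLeft W.K ξ ^ c) a = ξ ^ c * a := by
  rw [LinearMap.pow_mulLeft, LinearMap.mulLeft_apply]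

/-- The blocks of `π_i` and `π_(2n - i)` are equivalent if and only if the inverse of the
Lefschetz isomorphism is algebraic. -/
lemma eqv_iff {D : X.Cycles} (hD : X.IsCyc 1 D) (hHL : HardLefschetz W X D)
    (hP : ∀ i, ROp W X 0 (proj (W.isInternal X) i)) {i : ℕ} (hi : i ≤ X.dim) :
    Eqv (pi' hP i) (pi' hP (2 * X.dim - i)) ↔ InverseAlgebraic W X D i := by
  set h := W.isInternal X with hh
  set j := 2 * X.dim - i with hj
  have hL : ROp W X 1 (LinearMap.mulLeft W.K (W.cl X D)) := rop_mulLeft hD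
  have hOA := rop_opAlg (W := W) (X := X)
  have hLh : IsHom (W.gr X) 2 (LinearMap.mulLeft W.K (W.cl X D)) := by
    simpa using hOA.hom hL
  have hLm : ∀ a ∈ W.gr X i, (LinearMap.mulLeft W.K (W.cl X D) ^ (X.dim - i)) a ∈ W.gr X j := by
    intro a ha
    have := pow_L_mem hLh ha (X.dim - i)
    rwa [show i + 2 * (X.dim - i) = j by omega] at this
  constructor
  · rintro ⟨x, y, hx, -, -, hyx⟩
    have hxm : (x : Module.End W.K (W.H X)) ∈ KS (ROp W X) (-((X.dim - i : ℕ) : ℤ)) := by
      have h1 := block_mem hOA h x.2 (i := i) (j := j) (d := -((X.dim - i : ℕ) : ℤ)) (by omega)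
      have h2 : proj h i * (x : Module.End W.K (W.H X)) * proj h j = x := congrArg Subtype.val hx
      rw [h2] at h1
      refine Submodule.span_mono ?_ h1
      rintro _ ⟨u, hu, rfl⟩
      exact hOA.cast (hOA.mul (hOA.mul (hP i) hu) (hP j)) (by ring)
    have hinj : ∀ a ∈ W.gr X (X.dim + (X.dim - i)),
        (x : Module.End W.K (W.H X)) a = 0 → a = 0 := by
      intro a ha h0
      have h1 : ((y : Module.End W.K (W.H X)) * x) a = proj h j a :=
        congrArg (fun F => F a) (congrArg Subtype.val hyx)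
      rw [Module.End.mul_apply, h0, map_zero, proj_same h (by
        rwa [show X.dim + (X.dim - i) = j by omega] at ha)] at h1
      exact h1.symm
    obtain ⟨θ, hθ, hθ'⟩ := hOA.exists_theta_of_inj (Submodule.subset_span hL) hHL
      (c := X.dim - i) (by omega) hxm hinj
    rw [show X.dim - (X.dim - i) = i by omega] at hθ'
    obtain ⟨θ', hθR, hθ''⟩ := descent_one hOA h rop_str hL hP hθ hθ'
    obtain ⟨z, hz, rfl⟩ := exists_of_rop (p := i) (by omega) hθR
    refine ⟨z, hz, fun a ha => ?_⟩
    have := hθ'' a ha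
    rwa [mulLeft_pow_apply] at this
  · rintro ⟨z, hz, hzi⟩
    set L := LinearMap.mulLeft W.K (W.cl X D) ^ (X.dim - i) with hLdef
    have hLR : ROp W X ((X.dim - i : ℕ) : ℤ) L := hOA.cast (hOA.pow hL (X.dim - i)) (by ring)
    have hzR : ROp W X (-((X.dim - i : ℕ) : ℤ)) (W.corr (W.cl _ z)) :=
      rop_corr (p := i) (by omega) hz
    have hzi' : ∀ a ∈ W.gr X i, W.corr (W.cl _ z) (L a) = a := by
      intro a ha
      rw [hLdef, mulLeft_pow_apply]
      exact hzi a ha
    have e1 : proj h i * W.corr (W.cl _ z) * proj h j * (proj h j * L * proj h i) = proj h i := by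
      apply LinearMap.ext
      intro a
      simp only [Module.End.mul_apply]
      have ha := H914.proj_mem h i a
      rw [proj_same h (proj_mem h j _), proj_same h (hLm _ ha), hzi' _ ha, proj_same h ha]
    have e2 : proj h j * L * proj h i * (proj h i * W.corr (W.cl _ z) * proj h j) = proj h j := by
      apply LinearMap.ext
      intro b
      simp only [Module.End.mul_apply]
      have hb := H914.proj_mem h j b
      obtain ⟨a, ha, hab⟩ := (hHL i hi).2 _ hb
      change L a = _ at hab
      rw [← hab, hzi' a ha, proj_same h ha, proj_same h ha, proj_same h (hLm _ ha)]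
    set u : opA (ROp W X) := ⟨W.corr (W.cl _ z), mem_opA_of hzR⟩ with hu
    set v : opA (ROp W X) := ⟨L, mem_opA_of hLR⟩ with hv
    have e1' : pi' hP i * u * pi' hP j * (pi' hP j * v * pi' hP i) = pi' hP i := by
      apply Subtype.ext
      simp only [Subalgebra.coe_mul]
      exact e1
    have e2' : pi' hP j * v * pi' hP i * (pi' hP i * u * pi' hP j) = pi' hP j := by
      apply Subtype.ext
      simp only [Subalgebra.coe_mul]
      exact e2
    refine ⟨pi' hP i * u * pi' hP j, pi' hP j * v * pi' hP i, ?_, ?_, e1', e2'⟩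
    · simp only [mul_assoc, pi_idem]
      rw [← mul_assoc (pi' hP i), pi_idem]
    · simp only [mul_assoc, pi_idem]
      rw [← mul_assoc (pi' hP j), pi_idem]

/-- **Conjecture B and ranks of the Kunneth blocks.** -/
theorem rank_main {D : X.Cycles} (hD : X.IsCyc 1 D) (hHL : HardLefschetz W X D)
    {P : ℕ → (X.prod X).Cycles} (hPc : ∀ i, (X.prod X).IsCyc X.dim (P i))
    (hPi : ∀ i, InducesProjector W X i (P i)) :
    (∀ i ≤ X.dim,
      blockRank ops X (P i) (P (2 * X.dim - i)) i ≤ blockRank ops X (P i) (P i) X.dim ∧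
      (blockRank ops X (P i) (P (2 * X.dim - i)) i = blockRank ops X (P i) (P i) X.dim ↔
        InverseAlgebraic W X D i)) ∧
    (LefschetzB W X D ↔ ∀ i ≤ X.dim,
      blockRank ops X (P i) (P (2 * X.dim - i)) i = blockRank ops X (P i) (P i) X.dim) := by
  have hP : ∀ i, ROp W X 0 (proj (W.isInternal X) i) := by
    intro i
    rw [← corr_eq_proj (hPi i)]
    exact rop_corr (by simp) (hPc i)
  have hOA := rop_opAlg (W := W) (X := X)
  have hm : ∀ i ≤ X.dim, blockRank ops X (P i) (P (2 * X.dim - i)) i =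
      rk (pi' hP i) (pi' hP (2 * X.dim - i)) := by
    intro i hi
    exact blockRank_eq hP (d := (i : ℤ) - X.dim) (by omega) (by ring) (by omega) (hPc _) (hPc _)
      (hPi _) (hPi _)
  have he : ∀ i, blockRank ops X (P i) (P i) X.dim = rk (pi' hP i) (pi' hP i) := by
    intro i
    exact blockRank_eq hP (d := 0) (by ring) (by ring) (by omega) (hPc _) (hPc _)
      (hPi _) (hPi _)
  have hmain : ∀ i ≤ X.dim,
      blockRank ops X (P i) (P (2 * X.dim - i)) i ≤ blockRank ops X (P i) (P i) X.dim ∧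
      (blockRank ops X (P i) (P (2 * X.dim - i)) i = blockRank ops X (P i) (P i) X.dim ↔
        InverseAlgebraic W X D i) := by
    intro i hi
    rw [hm i hi, he i, ← eqv_iff hD hHL hP hi, ← rk_eq_iff (pi_idem hP i) (pi_idem hP _)]
    have h1 := rk_le (pi_idem hP i) (pi_idem hP (2 * X.dim - i))
    have h2 : rk (pi' hP (2 * X.dim - i)) (pi' hP (2 * X.dim - i)) =
        rk (pi' hP i) (pi' hP i) := rk_dual (adj_proj (by omega)) (adj_proj (by omega))
    rw [rk_symm (pi' hP (2 * X.dim - i)) (pi' hP i), h2] at h1 ⊢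
    omega
  refine ⟨hmain, ?_⟩
  constructor
  · intro hB i hi
    rw [(hmain i hi).2]
    obtain ⟨Φ, hΦ, hLam⟩ := lefschetzB_iff_rop.1 hB
    have hLh : IsHom (W.gr X) 2 (LinearMap.mulLeft W.K (W.cl X D)) := by
      simpa using hOA.hom (rop_mulLeft (W := W) hD)
    have hR : ROp W X (-((X.dim - i : ℕ) : ℤ)) (Φ ^ (X.dim - i)) :=
      hOA.cast (hOA.pow hΦ (X.dim - i)) (by ring)
    obtain ⟨z, hz, hz'⟩ := exists_of_rop (p := i) (by omega) hR
    refine ⟨z, hz, fun a ha => ?_⟩
    rw [hz', ← mulLeft_pow_apply]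
    exact lam_pow_L_pow hLh W_hbd hHL hLam (by omega) (by
      rwa [show X.dim - (X.dim - i) = i by omega])
  · intro hall
    apply lefschetzB_of_inj hD hHL
    intro c hc
    obtain ⟨z, hz, hzi⟩ := (hmain (X.dim - c) (by omega)).2.1 (hall _ (by omega))
    refine ⟨W.corr (W.cl _ z), KOp.gen (p := X.dim - c) (by omega) hz, fun b hb h0 => ?_⟩
    obtain ⟨a, ha, hab⟩ := (hHL (X.dim - c) (by omega)).2 b
      (by rwa [show 2 * X.dim - (X.dim - c) = X.dim + c by omega])
    rw [mulLeft_pow_apply] at hab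
    rw [← hab, hzi a ha] at h0
    rw [← hab, h0, mul_zero]

end Pool.Agent.Q56.BR
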