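import Pool.Agent.Q56.BR.Alg
import Pool.Agent.H447R3.KuB

/-!
# Adjoint operators with respect to Poincare duality
-/

open CategoryTheory AlgebraicGeometry Finset

universe u v

set_option linter.unusedSectionVars false

namespace Pool.Agent.Q56.BR

open Pool.Agent.H914 Pool.Agent.H447 VarClass Obj WeilCohomology

variable {k : Type u} [Field k] {𝒱 : VarClass k} {ops : CycleOps 𝒱}
  {W : WeilCohomology.{u, v} ops} {X : 𝒱.Obj}

/-- The Poincare duality map `b ↦ (a ↦ tr (a b))`. -/
noncomputable def pdMap (W : WeilCohomology.{u, v} ops) (X : 𝒱.Obj) :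
    W.H X →ₗ[W.K] Module.Dual W.K (W.H X) :=
  (LinearMap.mul W.K (W.H X)).flip.compr₂ (W.tr X)

lemma pdMap_apply (a b : W.H X) : pdMap W X b a = W.tr X (a * b) := rfl

lemma pdMap_inj : Function.Injective (pdMap W X) := by
  rw [← LinearMap.ker_eq_bot, LinearMap.ker_eq_bot']
  intro b hb
  apply nondeg_right
  intro a
  exact congrArg (fun F => F a) hb

/-- The Poincare duality isomorphism. -/
noncomputable def pd (W : WeilCohomology.{u, v} ops) (X : 𝒱.Obj) :
    W.H X ≃ₗ[W.K] Module.Dual W.K (W.H X) :=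
  LinearEquiv.ofInjectiveOfFinrankEq (pdMap W X) pdMap_inj Subspace.dual_finrank_eq.symm

lemma pd_apply (a b : W.H X) : pd W X b a = W.tr X (a * b) := rfl

/-- The adjoint operator. -/
noncomputable def adj (φ : Module.End W.K (W.H X)) : Module.End W.K (W.H X) :=
  (pd W X).symm.toLinearMap ∘ₗ φ.dualMap ∘ₗ (pd W X).toLinearMap

lemma tr_adj (φ : Module.End W.K (W.H X)) (a b : W.H X) :
    W.tr X (φ a * b) = W.tr X (a * adj φ b) := by
  rw [← pd_apply, ← pd_apply]
  have : pd W X (adj φ b) = φ.dualMap (pd W X b) := by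
    rw [adj]; exact (pd W X).apply_symm_apply _
  rw [this]; rfl

lemma adj_unique {φ ψ : Module.End W.K (W.H X)}
    (h : ∀ a b, W.tr X (φ a * b) = W.tr X (a * ψ b)) : adj φ = ψ := by
  apply LinearMap.ext
  intro b
  apply pdMap_inj
  apply LinearMap.ext
  intro a
  rw [pdMap_apply, pdMap_apply, ← tr_adj, h]

lemma adj_mul (φ ψ : Module.End W.K (W.H X)) : adj (φ * ψ) = adj ψ * adj φ := by
  apply adj_unique
  intro a b
  rw [Module.End.mul_apply, Module.End.mul_apply, tr_adj, tr_adj]

lemma trace_adj (φ : Module.End W.K (W.H X)) :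
    LinearMap.trace W.K (W.H X) (adj φ) = LinearMap.trace W.K (W.H X) φ := by
  have h1 : adj φ = (pd W X).symm.conj φ.dualMap := by
    apply LinearMap.ext
    intro b
    rfl
  have h2 := LinearMap.trace_transpose' (R := W.K) (M := W.H X) φ
  rw [h1, LinearMap.trace_conj', ← h2]
  rfl

lemma adj_add (φ ψ : Module.End W.K (W.H X)) : adj (φ + ψ) = adj φ + adj ψ := by
  apply adj_unique
  intro a b
  rw [LinearMap.add_apply, LinearMap.add_apply, add_mul, mul_add, map_add, map_add, tr_adj, tr_adj]

lemma adj_smul (c : W.K) (φ : Module.End W.K (W.H X)) : adj (c • φ) = c • adj φ := by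
  apply adj_unique
  intro a b
  rw [LinearMap.smul_apply, LinearMap.smul_apply, smul_mul_assoc, mul_smul_comm, map_smul,
    map_smul, tr_adj]

lemma adj_zero : adj (0 : Module.End W.K (W.H X)) = 0 := by
  apply adj_unique
  intro a b
  rw [LinearMap.zero_apply, LinearMap.zero_apply, zero_mul, mul_zero]

lemma adj_inj {φ : Module.End W.K (W.H X)} (h : adj φ = 0) : φ = 0 := by
  apply LinearMap.ext
  intro a
  rw [LinearMap.zero_apply]
  apply W.nondeg
  intro b
  rw [tr_adj, h, LinearMap.zero_apply, mul_zero, map_zero]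

lemma adj_proj {i : ℕ} (hi : i ≤ 2 * X.dim) :
    adj (proj (W.isInternal X) i) = proj (W.isInternal X) (2 * X.dim - i) := by
  apply adj_unique
  intro a b
  refine gr_induction (W.isInternal X) (p := fun a => W.tr X (proj (W.isInternal X) i a * b) =
    W.tr X (a * proj (W.isInternal X) (2 * X.dim - i) b)) ?_ ?_ a
  · intro l a ha
    refine gr_induction (W.isInternal X) (p := fun b => W.tr X (proj (W.isInternal X) i a * b) =
      W.tr X (a * proj (W.isInternal X) (2 * X.dim - i) b)) ?_ ?_ b
    · intro m b hb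
      by_cases hl : l = i
      · subst hl
        rw [proj_same _ ha]
        by_cases hm : m = 2 * X.dim - l
        · subst hm; rw [proj_same _ hb]
        · rw [proj_ne _ hb hm, mul_zero, map_zero, W.tr_eq_zero (W.mul_mem ha hb) (by omega)]
      · rw [proj_ne _ ha hl, zero_mul, map_zero]
        by_cases hm : m = 2 * X.dim - i
        · subst hm
          rw [proj_same _ hb, W.tr_eq_zero (W.mul_mem ha hb) (by omega)]
        · rw [proj_ne _ hb hm, mul_zero, map_zero]
    · intro b b' hb hb'
      rw [map_add, mul_add, mul_add, map_add, map_add, hb, hb']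
  · intro a a' ha ha'
    rw [map_add, add_mul, add_mul, map_add, map_add, ha, ha']

lemma adj_mem {φ : Module.End W.K (W.H X)} (hφ : φ ∈ opA (ROp W X)) : adj φ ∈ opA (ROp W X) := by
  rw [mem_opA_iff rop_opAlg] at hφ
  induction hφ using Submodule.span_induction with
  | mem y hy =>
    obtain ⟨d, hy⟩ := hy
    obtain ⟨ψ, hψ, h1⟩ := KOp.exists_adjoint (mem_KS_iff.1 (Submodule.subset_span hy))
    rw [adj_unique h1]
    exact mem_opA_of_KS rop_opAlg (mem_KS_iff.2 hψ)
  | zero => rw [adj_zero]; exact zero_mem _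
  | add x y _ _ hx hy => rw [adj_add]; exact add_mem hx hy
  | smul c x _ hx => rw [adj_smul]; exact Subalgebra.smul_mem _ hx c

/-- The adjoint as a linear map. -/
noncomputable def adjL (W : WeilCohomology.{u, v} ops) (X : 𝒱.Obj) :
    Module.End W.K (W.H X) →ₗ[W.K] Module.End W.K (W.H X) where
  toFun := adj
  map_add' := adj_add
  map_smul' := adj_smul

/-- The ranks of the blocks and Poincare duality. -/
lemma rk_dual {e f e' f' : opA (ROp W X)} (he : adj (e : Module.End W.K (W.H X)) = e')
    (hf : adj (f : Module.End W.K (W.H X)) = f') : rk f' e' = rk e f :=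
  rk_anti' (adjL W X) (fun _ hx => adj_mem hx) (fun _ hx => adj_inj hx) adj_mul trace_adj he hf

end Pool.Agent.Q56.BR
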