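import Pool.Agent.Q56.BR.Form
import Pool.Agent.H447R3.WtB

/-!
# The algebra generated by a graded family of operators, and its blocks
-/

open Polynomial Finset

set_option linter.unusedSectionVars false

namespace Pool.Agent.Q56.BR

open Pool.Agent.H914 Pool.Agent.H447

variable {K : Type*} [Field K] [CharZero K] {V : Type*} [AddCommGroup V] [Module K V]
  [Module.Finite K V] {gr : ℕ → Submodule K V} {n : ℕ} {R : ℤ → Module.End K V → Prop}

/-- The algebra generated by the operators of all degrees. -/
def opA (R : ℤ → Module.End K V → Prop) : Subalgebra K (Module.End K V) :=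
  Algebra.adjoin K {y | ∃ d, R d y}

lemma mem_opA_of {d : ℤ} {y : Module.End K V} (hy : R d y) : y ∈ opA R :=
  Algebra.subset_adjoin ⟨d, hy⟩

lemma mem_opA_iff (hR : OpAlg gr R) {x : Module.End K V} :
    x ∈ opA R ↔ x ∈ Submodule.span K {y | ∃ d, R d y} := by
  have h1 : (Submonoid.closure {y | ∃ d, R d y} : Set (Module.End K V)) = {y | ∃ d, R d y} := by
    let M : Submonoid (Module.End K V) :=
      { carrier := {y | ∃ d, R d y}
        mul_mem' := by
          rintro a b ⟨d, hd⟩ ⟨e, he⟩
          exact ⟨_, hR.mul hd he⟩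
        one_mem' := ⟨0, hR.one⟩ }
    exact congrArg (fun N : Submonoid (Module.End K V) => (N : Set (Module.End K V)))
      (Submonoid.closure_eq M)
  rw [opA, ← Subalgebra.mem_toSubmodule, Algebra.adjoin_eq_span, h1]

lemma mem_opA_of_KS (hR : OpAlg gr R) {d : ℤ} {y : Module.End K V} (hy : y ∈ KS R d) :
    y ∈ opA R := by
  rw [mem_opA_iff hR]
  have h1 : {y | R d y} ⊆ {y | ∃ d, R d y} := fun z hz => ⟨d, hz⟩
  exact Submodule.span_mono h1 hy

/-- The block of a homogeneous operator of the wrong degree is zero. -/
lemma block_zero (h : DirectSum.IsInternal gr) {y : Module.End K V} {d : ℤ}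
    (hy : IsHom gr (2 * d) y) {i j : ℕ} (hij : (i : ℤ) ≠ j + 2 * d) :
    proj h i * y * proj h j = 0 := by
  apply LinearMap.ext
  intro a
  rw [Module.End.mul_apply, Module.End.mul_apply, LinearMap.zero_apply,
    proj_grZ h (hy j _ (by rw [grZ_natCast]; exact proj_mem h j a)), if_neg hij]

/-- The blocks of the algebra. -/
lemma block_mem (hR : OpAlg gr R) (h : DirectSum.IsInternal gr) {x : Module.End K V}
    (hx : x ∈ opA R) {i j : ℕ} {d : ℤ} (hd : (i : ℤ) = j + 2 * d) :
    proj h i * x * proj h j ∈
      Submodule.span K ((fun y => proj h i * y * proj h j) '' {y | R d y}) := by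
  rw [mem_opA_iff hR] at hx
  induction hx using Submodule.span_induction with
  | mem y hy =>
    obtain ⟨d', hy⟩ := hy
    by_cases hdd : d' = d
    · subst hdd
      exact Submodule.subset_span ⟨y, hy, rfl⟩
    · rw [block_zero h (hR.hom hy) (by omega)]
      exact Submodule.zero_mem _
  | zero => rw [mul_zero, zero_mul]; exact Submodule.zero_mem _
  | add x y _ _ hx hy => rw [mul_add, add_mul]; exact Submodule.add_mem _ hx hy
  | smul c x _ hx => rw [mul_smul_comm, smul_mul_assoc]; exact Submodule.smul_mem _ _ hx

/-- Radical elements of a block. -/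
lemma block_rad (hR : OpAlg gr R) (h : DirectSum.IsInternal gr) (hP : ∀ i, R 0 (proj h i))
    {x : opA R} {i j : ℕ} {d : ℤ} (hd : (i : ℤ) = j + 2 * d)
    (hx : ∀ y, R (-d) y → LinearMap.trace K V (proj h i * x * proj h j * y) = 0) :
    (⟨proj h i, mem_opA_of (hP i)⟩ * x * ⟨proj h j, mem_opA_of (hP j)⟩ : opA R) ∈ rad (opA R) := by
  rintro ⟨y, hy⟩
  change LinearMap.trace K V (proj h i * x * proj h j * y) = 0
  rw [mem_opA_iff hR] at hy
  induction hy using Submodule.span_induction with
  | mem y hy =>
    obtain ⟨d', hy⟩ := hy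
    by_cases hdd : d' = -d
    · subst hdd
      exact hx y hy
    · have e1 : proj h i * (x : Module.End K V) * proj h j * y =
          proj h i * ((x : Module.End K V) * proj h j * y) := by simp only [mul_assoc]
      have e2 : proj h i * (x : Module.End K V) * proj h j * y =
          proj h i * (proj h i * ((x : Module.End K V) * proj h j * y)) := by
        rw [← mul_assoc (proj h i) (proj h i), proj_mul_proj]
        simp only [mul_assoc]
      rw [e2, LinearMap.trace_mul_comm]
      have e3 : proj h i * ((x : Module.End K V) * proj h j * y) * proj h i =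
          proj h i * x * proj h j * (proj h j * y * proj h i) := by
        have : proj h i * (x : Module.End K V) * proj h j * (proj h j * y * proj h i) =
          proj h i * x * (proj h j * proj h j) * y * proj h i := by simp only [mul_assoc]
        rw [this, proj_mul_proj]
        simp only [mul_assoc]
      rw [e3, block_zero h (hR.hom hy) (by omega), mul_zero, map_zero]
  | zero => rw [mul_zero, map_zero]
  | add x y _ _ hx hy => rw [mul_add, map_add, hx, hy, add_zero]
  | smul c x _ hx => rw [mul_smul_comm, map_smul, hx, smul_zero]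

/-- Descent of the coefficients for the inverse of one power of `L`. -/
theorem descent_one (hR : OpAlg gr R) (h : DirectSum.IsInternal gr)
    (hstr : ∀ y, R 0 y → ∃ q : ℚ, LinearMap.trace K V (par h * y) = q)
    {L : Module.End K V} (hL : R 1 L) (hP : ∀ i, R 0 (proj h i)) {c i : ℕ}
    {θ : Module.End K V} (hθ : θ ∈ KS R (-c)) (hinv : ∀ a ∈ gr i, θ ((L ^ c) a) = a) :
    ∃ θ', R (-c) θ' ∧ ∀ a ∈ gr i, θ' ((L ^ c) a) = a := by
  obtain ⟨ret, hret⟩ := exists_retract K
  set P := proj h i with hPdef
  have hPR : R 0 P := hP i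
  have hPP : P * P = P := proj_mul_proj h i
  have hTh : ∀ a, θ ((L ^ c) (P a)) = P a := fun a => hinv _ (H914.proj_mem h _ a)
  obtain ⟨z, hzR, hz⟩ := hR.exists_twist h hstr (ret := ret) hθ
  have hLc : R c (L ^ c) := hR.cast (hR.pow hL c) (by ring)
  set g := P * z * L ^ c * P with hg
  have hgR : R 0 g :=
    hR.cast (hR.mul (hR.mul (hR.mul hPR hzR) hLc) hPR) (by ring)
  set u := g - P with hu
  have huR : R 0 u := hR.sub hgR hPR
  have hPu : P * u = u := by
    rw [hu, mul_sub, hPP, hg, ← mul_assoc, ← mul_assoc, ← mul_assoc, hPP]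
  have huP : u * P = u := by
    rw [hu, sub_mul, hPP, hg, mul_assoc, hPP]
  have hparP : par h * P = (-1 : K) ^ i • P := by
    apply LinearMap.ext
    intro a
    rw [Module.End.mul_apply, par, scal_apply h _ (H914.proj_mem h _ a), LinearMap.smul_apply]
  have hunil : IsNilpotent u := by
    apply isNilpotent_of_trace_pow
    intro r
    have hur : R 0 (u ^ r) := hR.cast (hR.pow huR r) (by ring)
    have e1 : LinearMap.trace K V (par h * u ^ (r + 1)) =
        (-1 : K) ^ i * LinearMap.trace K V (u ^ (r + 1)) := by
      have : u ^ (r + 1) = P * u ^ (r + 1) := by rw [pow_succ', ← mul_assoc, hPu]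
      rw [this, ← mul_assoc, hparP, smul_mul_assoc, map_smul, smul_eq_mul]
    obtain ⟨q, hq⟩ := hstr (P * u ^ r) (hR.cast (hR.mul hPR hur) (by ring))
    have e2 : LinearMap.trace K V (par h * u ^ (r + 1)) = 0 := by
      have e3 : u ^ (r + 1) = P * (z * (L ^ c * (P * u ^ r))) - P * u ^ r := by
        rw [pow_succ']
        nth_rewrite 1 [hu]
        rw [sub_mul, hg]
        simp only [mul_assoc]
      have hx : R 0 (z * (L ^ c * (P * u ^ r))) :=
        hR.cast (hR.mul hzR (hR.mul hLc (hR.mul hPR hur))) (by ring)
      have e4 : LinearMap.trace K V (par h * (P * (z * (L ^ c * (P * u ^ r))))) = q := by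
        rw [str_comm h (hR.hom hPR), mul_assoc z, hz]
        · have : θ * (L ^ c * (P * u ^ r) * P) = P * u ^ r * P := by
            apply LinearMap.ext
            intro a
            simp only [Module.End.mul_apply]
            exact hTh _
          rw [this, ← str_comm h (hR.hom hPR), ← mul_assoc P P, hPP, hq, ret_ratCast hret]
        · exact hR.cast (hR.mul (hR.mul hLc (hR.mul hPR hur)) hPR) (by ring)
      rw [e3, mul_sub, map_sub, e4, hq, sub_self]
    rw [e2] at e1
    rcases mul_eq_zero.1 e1.symm with h0 | h0
    · exact absurd h0 (pow_ne_zero _ (by norm_num))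
    · exact h0
  obtain ⟨M, hM⟩ := hunil
  refine ⟨(∑ r ∈ range M, (-u) ^ r) * (P * z), ?_, ?_⟩
  · have h1 : R 0 (∑ r ∈ range M, (-u) ^ r) := by
      apply hR.sum
      intro r _
      exact hR.cast (hR.pow (hR.neg huR) r) (by ring)
    exact hR.cast (hR.mul h1 (hR.mul hPR hzR)) (by ring)
  · intro a ha
    have ha' : P a = a := proj_same h ha
    have e1 : (P * z) ((L ^ c) a) = (1 - -u) a := by
      have : (1 - -u) a = a + g a - P a := by
        rw [hu]
        simp only [LinearMap.sub_apply, LinearMap.neg_apply, Module.End.one_apply]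
        abel
      rw [this, ha', add_sub_cancel_left, hg]
      simp only [Module.End.mul_apply, ha']
    rw [Module.End.mul_apply, e1, ← Module.End.mul_apply, geom_sum_mul_neg, neg_pow, hM, mul_zero,
      sub_zero, Module.End.one_apply]

end Pool.Agent.Q56.BR
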