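import Pool.Agent.H914R2.KDefs
import Pool.Agent.H914R2.HodgeDefs

/-!
# Ranks of the Kunneth blocks of the cycles on `X × X` modulo numerical equivalence
-/

open CategoryTheory AlgebraicGeometry

universe u v

namespace Pool.Agent.Q56.BR

open Pool.Agent.H914 VarClass Obj WeilCohomology

variable {k : Type u} [Field k] {𝒱 : VarClass k} {ops : CycleOps 𝒱}

/-- The intersection numbers of the composite correspondences `P ∘ z ∘ Q` (first `Q`, then `z`,
then `P`), where `z` has codimension `q` on `X × X` and `P`, `Q` are correspondences of degree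
zero, with the cycles `w` of the complementary codimension on `X × X`. -/
noncomputable def blockNumbers (ops : CycleOps 𝒱) (X : 𝒱.Obj) (P Q : (X.prod X).Cycles) (q : ℕ)
    (z : {z : (X.prod X).Cycles // (X.prod X).IsCyc q z})
    (w : {w : (X.prod X).Cycles // (X.prod X).IsCyc (2 * X.dim - q) w}) : ℚ :=
  (X.prod X).V.degCycle (ops.mul (compCyc ops (compCyc ops Q z.1) P) w.1)

/-- The dimension over `ℚ` of the space of the composite correspondences `P ∘ z ∘ Q`, where `z`
runs over the cycles of codimension `q` on `X × X`, modulo numerical equivalence. -/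
noncomputable def blockRank (ops : CycleOps 𝒱) (X : 𝒱.Obj) (P Q : (X.prod X).Cycles) (q : ℕ) : ℕ :=
  Module.finrank ℚ (Submodule.span ℚ (Set.range (blockNumbers ops X P Q q)))

/-- The inverse of the Lefschetz isomorphism `ξ ^ (n - i) : H^i(X) → H^(2n - i)(X)`, where
`n = dim X` and `ξ` is the class of `D`, is induced by a cycle of codimension `i` on `X × X` with
rational coefficients. -/
def InverseAlgebraic (W : WeilCohomology.{u, v} ops) (X : 𝒱.Obj) (D : X.Cycles) (i : ℕ) : Prop :=
  ∃ z, (X.prod X).IsCyc i z ∧ ∀ a ∈ W.gr X i,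
    W.corr (W.cl _ z) (W.cl X D ^ (X.dim - i) * a) = a

end Pool.Agent.Q56.BR
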