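import Pool.Agent.Q56.BR.Lem
import Pool.Agent.W534.PoleA

/-!
# Ranks of blocks as ranks of bilinear forms
-/

open Polynomial

set_option linter.unusedSectionVars false

namespace Pool.Agent.Q56.BR

open Pool.Agent.H914

section Cast

variable {K : Type*} [Field K] [CharZero K]

/-- The rank of a family of rational functions does not change if the field of coefficients is
enlarged. -/
lemma finrank_cast {ι S : Type*} (φ : ι → S → ℚ) :
    Module.finrank ℚ (Submodule.span ℚ (Set.range φ)) =
      Module.finrank K (Submodule.span K (Set.range (fun i s => (φ i s : K)))) := by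
  classical
  obtain ⟨b, hb, hspan, hlin⟩ := exists_linearIndependent ℚ (Set.range φ)
  set c : b → S → K := fun x s => ((x : S → ℚ) s : K) with hc
  have hc1 : LinearIndependent K c := by
    rw [linearIndependent_iff']
    intro s g hg i hi
    have h1 : LinearIndependent ℚ (fun x : s => ((x : b) : S → ℚ)) :=
      hlin.comp _ Subtype.val_injective
    have h2 := Pool.Agent.W534.lin_ext (K := K) h1 (c := fun x : s => g x) (by
      intro w
      have h3 := congrFun hg w
      rw [Finset.sum_apply, Pi.zero_apply] at h3
      rw [← h3, ← Finset.sum_coe_sort s]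
      exact Finset.sum_congr rfl (fun x _ => rfl))
    exact congrFun h2 ⟨i, hi⟩
  have hc2 : Submodule.span K (Set.range (fun i s => (φ i s : K))) =
      Submodule.span K (Set.range c) := by
    apply le_antisymm
    · rw [Submodule.span_le]
      rintro _ ⟨i, rfl⟩
      have h1 : φ i ∈ Submodule.span ℚ b := by
        rw [hspan]; exact Submodule.subset_span ⟨i, rfl⟩
      have h2 : ∀ f ∈ Submodule.span ℚ b, (fun s => (f s : K)) ∈
          Submodule.span K (Set.range c) := by
        intro f hf
        induction hf using Submodule.span_induction with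
        | mem x hx => exact Submodule.subset_span ⟨⟨x, hx⟩, rfl⟩
        | zero =>
          have : (fun s => (((0 : S → ℚ) s : ℚ) : K)) = 0 := by funext s; simp
          rw [this]; exact Submodule.zero_mem _
        | add x y _ _ h1 h2 =>
          have : (fun s => (((x + y) s : ℚ) : K)) = (fun s => (x s : K)) + fun s => (y s : K) := by
            funext s; simp
          rw [this]; exact Submodule.add_mem _ h1 h2
        | smul a x _ h1 =>
          have : (fun s => (((a • x) s : ℚ) : K)) = (a : K) • fun s => (x s : K) := by
            funext s; simp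
          rw [this]; exact Submodule.smul_mem _ _ h1
      exact h2 _ h1
    · rw [Submodule.span_le]
      rintro _ ⟨⟨x, hx⟩, rfl⟩
      obtain ⟨i, hi⟩ := hb hx
      exact Submodule.subset_span ⟨i, by
        rw [hc]; funext s
        exact congrArg (fun g : S → ℚ => (g s : K)) hi⟩
  have h1 : Module.rank ℚ (Submodule.span ℚ (Set.range φ)) = Cardinal.mk b := by
    rw [← hspan]
    have := rank_span hlin
    rwa [Subtype.range_coe] at this
  rw [hc2, Module.finrank, Module.finrank, h1, rank_span hc1]
  have h2 := Cardinal.mk_range_eq_of_injective hc1.injective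
  have h3 := congrArg Cardinal.toNat h2
  rw [Cardinal.toNat_lift, Cardinal.toNat_lift] at h3
  exact h3.symm

end Cast

section Range

variable {K : Type*} [Field K] {E F G : Type*} [AddCommGroup E] [Module K E] [AddCommGroup F]
  [Module K F] [AddCommGroup G] [Module K G] [Module.Finite K E]

/-- Maps with the same kernel have the same rank. -/
lemma finrank_range_eq_of_ker (f : E →ₗ[K] F) (g : E →ₗ[K] G)
    (h : LinearMap.ker f = LinearMap.ker g) :
    Module.finrank K (LinearMap.range f) = Module.finrank K (LinearMap.range g) := by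
  have h1 := LinearMap.finrank_range_add_finrank_ker f
  have h2 := LinearMap.finrank_range_add_finrank_ker g
  rw [h] at h1
  omega

omit [Module.Finite K E] in
lemma finrank_range_flip_le {E F : Type*} [AddCommGroup E] [Module K E] [AddCommGroup F]
    [Module K F] [Module.Finite K E] [Module.Finite K F] (b : E →ₗ[K] F →ₗ[K] K) :
    Module.finrank K (LinearMap.range b) ≤ Module.finrank K (LinearMap.range b.flip) := by
  have h1 := LinearMap.finrank_range_dualMap_eq_finrank_range b.flip
  rw [← h1]
  have h2 : LinearMap.range b ≤ LinearMap.range b.flip.dualMap := by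
    rintro _ ⟨a, rfl⟩
    exact ⟨Module.Dual.eval K _ a, rfl⟩
  exact Submodule.finrank_mono h2

/-- The rank of a bilinear form is symmetric. -/
lemma finrank_range_flip [Module.Finite K F] (b : E →ₗ[K] F →ₗ[K] K) :
    Module.finrank K (LinearMap.range b) = Module.finrank K (LinearMap.range b.flip) :=
  le_antisymm (finrank_range_flip_le b) (finrank_range_flip_le b.flip)

end Range

variable {K : Type*} [Field K] {V : Type*} [AddCommGroup V] [Module K V] [Module.Finite K V]
  {A : Subalgebra K (Module.End K V)}

/-- The trace form of a block. -/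
noncomputable def form (e f : A) : A →ₗ[K] A →ₗ[K] K where
  toFun x := LinearMap.trace K V ∘ₗ LinearMap.mulLeft K ((e * x * f : A) : Module.End K V) ∘ₗ
    A.val.toLinearMap
  map_add' := by
    intro x y
    apply LinearMap.ext
    intro z
    rw [mul_add, add_mul]
    change LinearMap.trace K V (((e * x * f + e * y * f : A) : Module.End K V) * z) =
      LinearMap.trace K V (((e * x * f : A) : Module.End K V) * z) +
      LinearMap.trace K V (((e * y * f : A) : Module.End K V) * z)
    rw [Subalgebra.coe_add, add_mul, map_add]
  map_smul' := by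
    intro c x
    apply LinearMap.ext
    intro z
    rw [mul_smul_comm, smul_mul_assoc]
    change LinearMap.trace K V (((c • (e * x * f) : A) : Module.End K V) * z) =
      c • LinearMap.trace K V (((e * x * f : A) : Module.End K V) * z)
    rw [Subalgebra.coe_smul, smul_mul_assoc, map_smul]

lemma form_apply (e f x y : A) :
    form e f x y = LinearMap.trace K V (((e * x * f : A) : Module.End K V) * y) := rfl

lemma ker_form (e f : A) : LinearMap.ker (form e f) = LinearMap.ker ((rad A).mkQ ∘ₗ lr e f) := by
  ext x
  rw [LinearMap.mem_ker, LinearMap.mem_ker, LinearMap.comp_apply, lr_apply,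
    Submodule.mkQ_apply, Submodule.Quotient.mk_eq_zero]
  constructor
  · intro h y
    exact congrArg (fun F => F y) h
  · intro h
    apply LinearMap.ext
    intro y
    exact h y

lemma rk_eq_form (e f : A) : rk e f = Module.finrank K (LinearMap.range (form e f)) := by
  have h1 : (rad A).mkQ ∘ₗ lr e f = qop e f ∘ₗ (rad A).mkQ := rfl
  rw [finrank_range_eq_of_ker _ _ (ker_form e f), rk, h1,
    LinearMap.range_comp_of_range_eq_top _ (Submodule.range_mkQ _)]

lemma form_flip (e f : A) : (form e f).flip = form f e := by
  apply LinearMap.ext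
  intro x
  apply LinearMap.ext
  intro y
  rw [LinearMap.flip_apply, form_apply, form_apply]
  simp only [Subalgebra.coe_mul]
  rw [show (e : Module.End K V) * y * f * x = (e * y) * (f * x) by simp only [mul_assoc],
    LinearMap.trace_mul_comm, ← mul_assoc]

lemma rk_symm (e f : A) : rk e f = rk f e := by
  rw [rk_eq_form, rk_eq_form, finrank_range_flip, form_flip]

/-- Ranks and anti-automorphisms. -/
lemma rk_anti (σ : A ≃ₗ[K] A) (hσ : ∀ x y, σ (x * y) = σ y * σ x)
    (htr : ∀ x, LinearMap.trace K V (σ x : Module.End K V) =
      LinearMap.trace K V (x : Module.End K V)) (e f : A) : rk (σ f) (σ e) = rk e f := by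
  have h1 : ∀ x y, form (σ f) (σ e) (σ x) (σ y) = form e f x y := by
    intro x y
    have h2 : σ f * σ x * σ e * σ y = σ (y * e * x * f) := by
      rw [hσ, hσ, hσ]; simp only [mul_assoc]
    rw [form_apply, form_apply, ← Subalgebra.coe_mul, ← Subalgebra.coe_mul, h2, htr]
    simp only [Subalgebra.coe_mul]
    rw [show (y : Module.End K V) * e * x * f = y * (e * x * f) by simp only [mul_assoc],
      LinearMap.trace_mul_comm]
  have h2 : form e f = σ.dualMap.toLinearMap ∘ₗ form (σ f) (σ e) ∘ₗ σ.toLinearMap := by
    apply LinearMap.ext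
    intro x
    apply LinearMap.ext
    intro y
    exact (h1 x y).symm
  rw [rk_eq_form, rk_eq_form e f, h2]
  have h3 : LinearMap.range (σ.dualMap.toLinearMap ∘ₗ form (σ f) (σ e) ∘ₗ σ.toLinearMap) =
      (LinearMap.range (form (σ f) (σ e))).map σ.dualMap.toLinearMap := by
    rw [LinearMap.range_comp, LinearMap.range_comp_of_range_eq_top _ (LinearEquiv.range σ)]
  rw [h3]
  exact (LinearEquiv.finrank_map_eq σ.dualMap _).symm

/-- Ranks and anti-automorphisms of the algebra of all operators. -/
lemma rk_anti' (τ : Module.End K V →ₗ[K] Module.End K V) (hA : ∀ x ∈ A, τ x ∈ A)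
    (hinj : ∀ x, τ x = 0 → x = 0) (hτ : ∀ x y, τ (x * y) = τ y * τ x)
    (htr : ∀ x, LinearMap.trace K V (τ x) = LinearMap.trace K V x) {e f e' f' : A}
    (he : τ e = e') (hf : τ f = f') : rk f' e' = rk e f := by
  let r : A →ₗ[K] A :=
    { toFun := fun x => ⟨τ x, hA _ x.2⟩
      map_add' := fun x y => Subtype.ext (τ.map_add _ _)
      map_smul' := fun c x => Subtype.ext (τ.map_smul _ _) }
  have hr : Function.Injective r := by
    rw [← LinearMap.ker_eq_bot, LinearMap.ker_eq_bot']
    intro x hx
    exact Subtype.ext (hinj _ (congrArg Subtype.val hx))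
  have hc : ∀ x, ((LinearEquiv.ofInjectiveEndo r hr x : A) : Module.End K V) = τ x :=
    fun x => rfl
  have h1 := rk_anti (LinearEquiv.ofInjectiveEndo r hr)
    (fun x y => Subtype.ext (by rw [hc, Subalgebra.coe_mul, hτ, Subalgebra.coe_mul, hc, hc]))
    (fun x => by rw [hc, htr]) e f
  have h2 : LinearEquiv.ofInjectiveEndo r hr e = e' := Subtype.ext (by rw [hc, he])
  have h3 : LinearEquiv.ofInjectiveEndo r hr f = f' := Subtype.ext (by rw [hc, hf])
  rwa [h2, h3] at h1

/-- The rank of a block in terms of generators. -/
lemma rk_eq_span {ι S : Type*} {e f : A} (y : ι → A) (y' : S → A)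
    (h1 : ∀ x : A, e * x * f ∈ Submodule.span K (Set.range fun i => e * y i * f))
    (h2 : ∀ x : A, (∀ s, form e f x (y' s) = 0) → e * x * f ∈ rad A) :
    rk e f = Module.finrank K (Submodule.span K (Set.range fun i s => form e f (y i) (y' s))) := by
  set Ψ : A →ₗ[K] (S → K) := LinearMap.pi fun s => (form e f).flip (y' s) with hΨ
  have hΨa : ∀ x s, Ψ x s = form e f x (y' s) := fun x s => rfl
  have hker : LinearMap.ker (form e f) = LinearMap.ker Ψ := by
    rw [ker_form]
    ext x
    rw [LinearMap.mem_ker, LinearMap.mem_ker, LinearMap.comp_apply, lr_apply,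
      Submodule.mkQ_apply, Submodule.Quotient.mk_eq_zero]
    constructor
    · intro h
      funext s
      exact h (y' s)
    · intro h
      apply h2
      intro s
      exact congrFun h s
  have hrange : LinearMap.range Ψ =
      Submodule.span K (Set.range fun i s => form e f (y i) (y' s)) := by
    set θ : A →ₗ[K] (S → K) := LinearMap.pi fun s =>
      LinearMap.trace K V ∘ₗ LinearMap.mulRight K ((y' s : A) : Module.End K V) ∘ₗ
        A.val.toLinearMap with hθ
    have hθa : ∀ x s, θ x s = LinearMap.trace K V ((x : Module.End K V) * y' s) :=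
      fun x s => rfl
    have hΨθ : ∀ x, Ψ x = θ (e * x * f) := by
      intro x
      funext s
      rw [hΨa, hθa, form_apply]
    apply le_antisymm
    · rintro _ ⟨x, rfl⟩
      rw [hΨθ]
      have h3 := Submodule.mem_map_of_mem (f := θ) (h1 x)
      rw [Submodule.map_span, ← Set.range_comp] at h3
      have h4 : (θ ∘ fun i => e * y i * f) = fun i s => form e f (y i) (y' s) := by
        funext i s
        rfl
      rwa [h4] at h3
    · rw [Submodule.span_le]
      rintro _ ⟨i, rfl⟩
      exact ⟨y i, funext fun s => hΨa _ _⟩
  rw [rk_eq_form, finrank_range_eq_of_ker _ _ hker, hrange]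

end Pool.Agent.Q56.BR
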