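import Pool.Agent.Q56.BR.Adj
import Pool.Agent.Q56.BR.Defs

/-!
# Conjecture B and the ranks of the Kunneth blocks
-/

open CategoryTheory AlgebraicGeometry Finset

universe u v

set_option linter.unusedSectionVars false

namespace Pool.Agent.Q56.BR

open Pool.Agent.H914 Pool.Agent.H447 VarClass Obj WeilCohomology

variable {k : Type u} [Field k] {𝒱 : VarClass k} {ops : CycleOps 𝒱}
  {W : WeilCohomology.{u, v} ops} {X : 𝒱.Obj}

lemma corr_eq_proj {i : ℕ} {P : (X.prod X).Cycles} (hP : InducesProjector W X i P) :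
    W.corr (W.cl _ P) = proj (W.isInternal X) i := by
  apply gr_ext (W.isInternal X)
  intro j a ha
  rw [hP j a ha]
  split_ifs with h
  · subst h; rw [proj_same _ ha]
  · rw [proj_ne _ ha h]

/-- The projectors as elements of the algebra of correspondences. -/
noncomputable def pi' (hP : ∀ i, ROp W X 0 (proj (W.isInternal X) i)) (i : ℕ) : opA (ROp W X) :=
  ⟨proj (W.isInternal X) i, mem_opA_of (hP i)⟩

lemma pi_idem (hP : ∀ i, ROp W X 0 (proj (W.isInternal X) i)) (i : ℕ) :
    pi' hP i * pi' hP i = pi' hP i :=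
  Subtype.ext (proj_mul_proj _ i)

lemma par_proj (h : DirectSum.IsInternal (W.gr X)) (i : ℕ) :
    par h * proj h i = (-1 : W.K) ^ i • proj h i := by
  apply LinearMap.ext
  intro a
  rw [Module.End.mul_apply, par, scal_apply h _ (H914.proj_mem h _ a), LinearMap.smul_apply]

/-- The rank of a block modulo numerical equivalence in terms of operators. -/
theorem blockRank_eq (hP : ∀ i, ROp W X 0 (proj (W.isInternal X) i)) {i j q : ℕ} {d : ℤ}
    (hd : (i : ℤ) = j + 2 * d) (hq : (q : ℤ) = X.dim + d) (hq' : q ≤ 2 * X.dim)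
    {P Q : (X.prod X).Cycles} (hPc : (X.prod X).IsCyc X.dim P) (hQc : (X.prod X).IsCyc X.dim Q)
    (hPi : InducesProjector W X i P) (hQj : InducesProjector W X j Q) :
    blockRank ops X P Q q = rk (pi' hP i) (pi' hP j) := by
  set h := W.isInternal X with hh
  set y : {z : (X.prod X).Cycles // (X.prod X).IsCyc q z} → opA (ROp W X) :=
    fun z => ⟨W.corr (W.cl _ z.1), mem_opA_of (rop_corr hq z.2)⟩ with hy
  set y' : {w : (X.prod X).Cycles // (X.prod X).IsCyc (2 * X.dim - q) w} → opA (ROp W X) :=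
    fun w => (-1 : W.K) ^ i • ⟨W.corr (W.cl _ (ops.pull (swap X X) w.1)),
      mem_opA_of (rop_corr (d := -d) (by omega) (ops.pull_mem (swap X X) w.2))⟩ with hy'
  have hval : ∀ z w, ((blockNumbers ops X P Q q z w : ℚ) : W.K) =
      form (pi' hP i) (pi' hP j) (y z) (y' w) := by
    intro z w
    have hzc : (X.prod X).IsCyc q (compCyc ops (compCyc ops Q z.1) P) :=
      compCyc_mem (compCyc_mem (r := q) hQc z.2 (by omega)) hPc (by omega)
    have e1 : W.corr (W.cl _ (compCyc ops (compCyc ops Q z.1) P)) =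
        proj h i * W.corr (W.cl _ z.1) * proj h j := by
      rw [corr_compCyc W hPc, corr_compCyc W z.2, corr_eq_proj hPi, corr_eq_proj hQj, mul_assoc]
      rfl
    rw [blockNumbers, deg_eq_str (W := W) (p := q) (q := 2 * X.dim - q) (by omega) hzc w.2, e1,
      form_apply]
    change _ = LinearMap.trace W.K (W.H X) (proj h i * W.corr (W.cl _ z.1) * proj h j *
      ((-1 : W.K) ^ i • W.corr (W.cl _ (ops.pull (swap X X) w.1))))
    rw [mul_smul_comm, ← smul_mul_assoc, ← smul_mul_assoc, ← smul_mul_assoc, ← par_proj]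
    simp only [mul_assoc]
  rw [blockRank, finrank_cast (K := W.K)]
  have hfun : (fun (z : {z : (X.prod X).Cycles // (X.prod X).IsCyc q z})
      (w : {w : (X.prod X).Cycles // (X.prod X).IsCyc (2 * X.dim - q) w}) =>
        ((blockNumbers ops X P Q q z w : ℚ) : W.K)) =
      fun z w => form (pi' hP i) (pi' hP j) (y z) (y' w) := by
    funext z w
    exact hval z w
  rw [hfun, ← rk_eq_span y y']
  · rintro ⟨x, hx⟩
    have h1 := block_mem rop_opAlg h hx hd
    have h2 : ((fun y => proj h i * y * proj h j) '' {y | ROp W X d y}) =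
        (opA (ROp W X)).val.toLinearMap '' (Set.range fun z => pi' hP i * y z * pi' hP j) := by
      ext t
      constructor
      · rintro ⟨u, hu, rfl⟩
        obtain ⟨z, hz, rfl⟩ := exists_of_rop hq hu
        exact ⟨_, ⟨⟨z, hz⟩, rfl⟩, rfl⟩
      · rintro ⟨_, ⟨z, rfl⟩, rfl⟩
        exact ⟨_, rop_corr hq z.2, rfl⟩
    rw [h2, ← Submodule.map_span] at h1
    obtain ⟨s, hs, hs'⟩ := h1
    have h3 : s = pi' hP i * ⟨x, hx⟩ * pi' hP j := Subtype.ext hs'
    rw [← h3]
    exact hs
  · intro x hx
    apply block_rad rop_opAlg h hP hd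
    intro u hu
    obtain ⟨z, hz, rfl⟩ := exists_of_rop (p := 2 * X.dim - q) (d := -d) (by omega) hu
    have h1 := hx ⟨ops.pull (swap X X) z, ops.pull_mem _ hz⟩
    rw [form_apply] at h1
    change LinearMap.trace W.K (W.H X) (proj h i * (x : Module.End W.K (W.H X)) * proj h j *
      ((-1 : W.K) ^ i • W.corr (W.cl _ (ops.pull (swap X X) (ops.pull (swap X X) z))))) = 0 at h1
    rw [W.cl_pull, W.cl_pull, map_swap_swap, mul_smul_comm, map_smul, smul_eq_mul] at h1
    rcases mul_eq_zero.1 h1 with h2 | h2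
    · exact absurd h2 (pow_ne_zero _ (by norm_num))
    · exact h2

end Pool.Agent.Q56.BR
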