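import Pool.Agent.H914R2.Core0

/-!
# Ranks of blocks of an algebra of operators modulo the radical of the trace form
-/

open Polynomial

set_option linter.unusedSectionVars false

namespace Pool.Agent.Q56.BR

open Pool.Agent.H914

variable {K : Type*} [Field K] {V : Type*} [AddCommGroup V] [Module K V] [Module.Finite K V]

/-- The radical of the trace form of an algebra of operators. -/
def rad (A : Subalgebra K (Module.End K V)) : Submodule K A where
  carrier := {x | ∀ y : A, LinearMap.trace K V ((x : Module.End K V) * y) = 0}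
  add_mem' := by
    intro a b ha hb y
    rw [Subalgebra.coe_add, add_mul, map_add, ha y, hb y, add_zero]
  zero_mem' := by intro y; rw [Subalgebra.coe_zero, zero_mul, map_zero]
  smul_mem' := by
    intro c x hx y
    rw [Subalgebra.coe_smul, smul_mul_assoc, map_smul, hx y, smul_zero]

variable {A : Subalgebra K (Module.End K V)}

lemma mem_rad {x : A} : x ∈ rad A ↔ ∀ y : A, LinearMap.trace K V ((x : Module.End K V) * y) = 0 :=
  Iff.rfl

lemma rad_mul (a b : A) {x : A} (hx : x ∈ rad A) : a * x * b ∈ rad A := by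
  intro y
  have h := hx (b * y * a)
  rw [Subalgebra.coe_mul, Subalgebra.coe_mul, mul_assoc, mul_assoc, LinearMap.trace_mul_comm]
  rw [Subalgebra.coe_mul, Subalgebra.coe_mul] at h
  rw [← h]
  simp only [mul_assoc]

/-- The map `x ↦ a x b`. -/
def lr (a b : A) : A →ₗ[K] A := LinearMap.mulRight K b ∘ₗ LinearMap.mulLeft K a

lemma lr_apply (a b x : A) : lr a b x = a * x * b := rfl

/-- The map `x ↦ a x b` on the quotient by the radical. -/
def qop (a b : A) : Module.End K (A ⧸ rad A) :=
  (rad A).mapQ (rad A) (lr a b) (fun _ hx => rad_mul a b hx)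

lemma qop_mk (a b x : A) : qop a b ((rad A).mkQ x) = (rad A).mkQ (a * x * b) := rfl

lemma qop_ext {f g : Module.End K (A ⧸ rad A)} (h : ∀ x, f ((rad A).mkQ x) = g ((rad A).mkQ x)) :
    f = g := by
  apply LinearMap.ext
  intro y
  obtain ⟨x, rfl⟩ := Submodule.mkQ_surjective _ y
  exact h x

lemma qop_mul (a b c d : A) : qop a b * qop c d = qop (a * c) (d * b) := by
  apply qop_ext
  intro x
  rw [Module.End.mul_apply, qop_mk, qop_mk, qop_mk]
  simp only [mul_assoc]

lemma qop_add_left (a a' b : A) : qop (a + a') b = qop a b + qop a' b := by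
  apply qop_ext
  intro x
  rw [LinearMap.add_apply, qop_mk, qop_mk, qop_mk, ← map_add, add_mul, add_mul]

lemma qop_add_right (a b b' : A) : qop a (b + b') = qop a b + qop a b' := by
  apply qop_ext
  intro x
  rw [LinearMap.add_apply, qop_mk, qop_mk, qop_mk, ← map_add, mul_add]

/-- The trace of `x ↦ a x b` on the quotient by the radical. -/
noncomputable def D (a b : A) : K := LinearMap.trace K (A ⧸ rad A) (qop a b)

lemma D_add_left (a a' b : A) : D (a + a') b = D a b + D a' b := by
  rw [D, qop_add_left, map_add]; rfl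

lemma D_add_right (a b b' : A) : D a (b + b') = D a b + D a b' := by
  rw [D, qop_add_right, map_add]; rfl

lemma D_comm_left (x y g : A) : D (x * y) g = D (y * x) g := by
  have e1 : qop (x * y) g = qop x 1 * qop y g := by rw [qop_mul, mul_one]
  have e2 : qop (y * x) g = qop y g * qop x 1 := by rw [qop_mul, one_mul]
  rw [D, D, e1, e2, LinearMap.trace_mul_comm]

lemma D_comm_right (g x y : A) : D g (x * y) = D g (y * x) := by
  have e1 : qop g (x * y) = qop g y * qop 1 x := by rw [qop_mul, mul_one]
  have e2 : qop g (y * x) = qop 1 x * qop g y := by rw [qop_mul, one_mul]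
  rw [D, D, e1, e2, LinearMap.trace_mul_comm]

/-- The rank of the block `e A f` modulo the radical. -/
noncomputable def rk (e f : A) : ℕ := Module.finrank K (LinearMap.range (qop e f))

lemma D_eq_rk {e f : A} (he : e * e = e) (hf : f * f = f) : D e f = (rk e f : K) := by
  have h : qop e f * qop e f = qop e f := by rw [qop_mul, he, hf]
  exact trace_idem h

lemma rk_eq_zero_iff {e f : A} : rk e f = 0 ↔ ∀ x : A, e * x * f ∈ rad A := by
  rw [rk, Submodule.finrank_eq_zero, LinearMap.range_eq_bot]
  constructor
  · intro h x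
    have := congrArg (fun F => F ((rad A).mkQ x)) h
    simp only [qop_mk, LinearMap.zero_apply] at this
    rwa [Submodule.mkQ_apply, Submodule.Quotient.mk_eq_zero] at this
  · intro h
    apply qop_ext
    intro x
    rw [qop_mk, LinearMap.zero_apply, Submodule.mkQ_apply, Submodule.Quotient.mk_eq_zero]
    exact h x

/-- The equivalence of idempotents. -/
def Eqv (e f : A) : Prop := ∃ x y : A, e * x * f = x ∧ f * y * e = y ∧ x * y = e ∧ y * x = f

variable [CharZero K]

lemma idem_sub {e p : A} (he : e * e = e) (hp : p * p = p) (h1 : e * p = p) (h2 : p * e = p) :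
    (e - p) * (e - p) = e - p := by
  rw [sub_mul, mul_sub, mul_sub, he, h1, h2, hp, sub_self, sub_zero]

omit [CharZero K] [Module.Finite K V] in
lemma trace_cyc (a b c : Module.End K V) :
    LinearMap.trace K V (a * b * c) = LinearMap.trace K V (c * a * b) := by
  rw [LinearMap.trace_mul_comm, mul_assoc]

/-- The Fitting idempotent of a non-nilpotent element of a corner. -/
lemma exists_idem {x y : A} (h : LinearMap.trace K V ((x : Module.End K V) * y) ≠ 0) :
    ∃ b : A, b * (x * y) = (x * y) * b ∧
      ((x * y) * b) * ((x * y) * b) = (x * y) * b ∧ (x * y) * b ≠ 0 := by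
  set a : A := x * y with ha
  obtain ⟨w, k, -, hw, hkw, g, hg⟩ := exists_fitting (a : Module.End K V)
  have hcomm : ∀ g : K[X], aeval a g * a = a * aeval a g := by
    intro g
    have h1 : aeval a (g * X) = aeval a (X * g) := by rw [mul_comm]
    rwa [map_mul, map_mul, aeval_X] at h1
  have hco : ((a * aeval a g : A) : Module.End K V) = 1 - aeval (a : Module.End K V) w := by
    have h1 : aeval (a : Module.End K V) (1 - w) = aeval (a : Module.End K V) (X * g) := by
      rw [hg]
    rw [map_sub, map_one, map_mul, aeval_X] at h1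
    rw [h1, Subalgebra.coe_mul, Polynomial.aeval_subalgebra_coe]
  refine ⟨aeval a g, hcomm g, ?_, ?_⟩
  · apply Subtype.ext
    rw [Subalgebra.coe_mul, hco, sub_mul, one_mul, mul_sub, mul_one, hw, sub_self, sub_zero]
  · intro h0
    rw [h0, Subalgebra.coe_zero, eq_comm, sub_eq_zero] at hco
    rw [← hco, mul_one] at hkw
    apply h
    have hnil : IsNilpotent ((a : Module.End K V)) := ⟨k, hkw⟩
    have h1 := LinearMap.isNilpotent_trace_of_isNilpotent hnil
    rw [ha, Subalgebra.coe_mul] at h1
    exact h1.eq_zero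

/-- The induction step and the base of the induction. -/
theorem main (n : ℕ) : ∀ e f : A, e * e = e → f * f = f → rk e f = n →
    (rk e f + rk f e ≤ rk e e + rk f f) ∧
      (rk e f + rk f e = rk e e + rk f f → Eqv e f) := by
  induction n using Nat.strong_induction_on with
  | _ n ih =>
  intro e f he hf hn
  by_cases h0 : ∀ x : A, e * x * f ∈ rad A
  · -- the base
    have h1 : rk e f = 0 := rk_eq_zero_iff.2 h0
    have h2 : rk f e = 0 := by
      rw [rk_eq_zero_iff]
      intro y x
      have h3 := h0 x y
      simp only [Subalgebra.coe_mul] at h3 ⊢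
      rw [show (f : Module.End K V) * y * e * x = (f * y) * (e * x) by simp only [mul_assoc],
        LinearMap.trace_mul_comm, ← mul_assoc]
      exact h3
    refine ⟨by omega, fun h => ?_⟩
    have h3 : rk e e = 0 := by omega
    have h4 : rk f f = 0 := by omega
    have key : ∀ g : A, g * g = g → rk g g = 0 → g = 0 := by
      intro g hg hg0
      have h5 := rk_eq_zero_iff.1 hg0 g 1
      rw [hg, hg, Subalgebra.coe_one, mul_one] at h5
      have h6 : (g : Module.End K V) = 0 :=
        eq_zero_of_idem_of_trace_eq_zero (by rw [← Subalgebra.coe_mul, hg]) h5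
      exact_mod_cast h6
    rw [key e he h3, key f hf h4]
    exact ⟨0, 0, by simp, by simp, by simp, by simp⟩
  · push Not at h0
    obtain ⟨x', hx'⟩ := h0
    rw [mem_rad] at hx'
    push Not at hx'
    obtain ⟨y', hy'⟩ := hx'
    set x := e * x' * f with hx
    set y := f * y' * e with hy
    have hex : e * x = x := by rw [hx, ← mul_assoc, ← mul_assoc, he]
    have hxf : x * f = x := by rw [hx, mul_assoc, hf]
    have hfy : f * y = y := by rw [hy, ← mul_assoc, ← mul_assoc, hf]
    have hye : y * e = y := by rw [hy, mul_assoc, he]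
    have htr : LinearMap.trace K V ((x : Module.End K V) * y) ≠ 0 := by
      have e1 : LinearMap.trace K V ((x : Module.End K V) * y) =
          LinearMap.trace K V ((x : Module.End K V) * y') := by
        have e2 : (x : Module.End K V) * y = (x : Module.End K V) * y' * e := by
          rw [← Subalgebra.coe_mul, ← Subalgebra.coe_mul, ← Subalgebra.coe_mul]
          congr 1
          rw [hy, ← mul_assoc, ← mul_assoc, hxf]
        rw [e2, trace_cyc, ← Subalgebra.coe_mul A e x, hex]
      rw [e1]; exact hy'
    clear_value x y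
    obtain ⟨b, hb, hpp, hp0⟩ := exists_idem htr
    set a := x * y with ha
    set p := a * b with hp
    have hbp : b * p = p * b := by rw [hp, ← mul_assoc, hb, mul_assoc]
    have hea : e * a = a := by rw [ha, ← mul_assoc, hex]
    have hae : a * e = a := by rw [ha, mul_assoc, hye]
    have hep : e * p = p := by rw [hp, ← mul_assoc, hea]
    have hpe : p * e = p := by rw [← hb, mul_assoc, hae]
    set x1 := p * x with hx1
    set y1 := y * (b * p) with hy1
    clear_value p
    have hx1y1 : x1 * y1 = p := by
      calc x1 * y1 = p * (x * y * b) * p := by rw [hx1, hy1]; simp only [mul_assoc]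
        _ = p := by rw [← ha, ← hp, hpp, hpp]
    set p' := y1 * x1 with hp'
    have hpx1 : p * x1 = x1 := by rw [hx1, ← mul_assoc, hpp]
    have hy1p : y1 * p = y1 := by rw [hy1, mul_assoc, mul_assoc b, hpp]
    have hfy1 : f * y1 = y1 := by rw [hy1, ← mul_assoc, hfy]
    have hx1f : x1 * f = x1 := by rw [hx1, mul_assoc, hxf]
    clear_value x1 y1
    have hx1p' : x1 * p' = x1 := by rw [hp', ← mul_assoc, hx1y1, hpx1]
    have hp'y1 : p' * y1 = y1 := by rw [hp', mul_assoc, hx1y1, hy1p]
    have hp'p' : p' * p' = p' := by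
      nth_rewrite 2 [hp']
      rw [← mul_assoc, hp'y1]
    have hfp' : f * p' = p' := by rw [hp', ← mul_assoc, hfy1]
    have hp'f : p' * f = p' := by rw [hp', mul_assoc, hx1f]
    set e0 := e - p with he0
    set f0 := f - p' with hf0
    have he0e0 : e0 * e0 = e0 := idem_sub he hpp hep hpe
    have hf0f0 : f0 * f0 = f0 := idem_sub hf hp'p' hfp' hp'f
    have hes : e = e0 + p := by rw [he0, sub_add_cancel]
    have hfs : f = f0 + p' := by rw [hf0, sub_add_cancel]
    have hDl : ∀ g, D p g = D p' g := by
      intro g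
      rw [← hx1y1, D_comm_left]
    have hDr : ∀ g, D g p = D g p' := by
      intro g
      rw [← hx1y1, D_comm_right]
    -- the rank of the block of `p` and `p'`
    have hpos : rk p p' ≠ 0 := by
      intro h1
      have h2 := rk_eq_zero_iff.1 h1 x1 y1
      rw [hpx1, hx1p', ← Subalgebra.coe_mul, hx1y1] at h2
      apply hp0
      have h6 : (p : Module.End K V) = 0 :=
        eq_zero_of_idem_of_trace_eq_zero (by rw [← Subalgebra.coe_mul, hpp]) h2
      exact_mod_cast h6
    have hsplit : rk e f = rk e0 f0 + rk e0 p' + (rk p f0 + rk p p') := by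
      have h1 : D e f = D e0 f0 + D e0 p' + (D p f0 + D p p') := by
        rw [hes, hfs, D_add_left, D_add_right, D_add_right]
      rw [D_eq_rk he hf, D_eq_rk he0e0 hf0f0, D_eq_rk he0e0 hp'p', D_eq_rk hpp hf0f0,
        D_eq_rk hpp hp'p'] at h1
      exact_mod_cast h1
    obtain ⟨hle, heq⟩ := ih (rk e0 f0) (by omega) e0 f0 he0e0 hf0f0 rfl
    have hQ : rk e e + rk f f + (rk e0 f0 + rk f0 e0) =
        rk e0 e0 + rk f0 f0 + (rk e f + rk f e) := by
      have h1 : D e e + D f f + (D e0 f0 + D f0 e0) = D e0 e0 + D f0 f0 + (D e f + D f e) := by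
        rw [hes, hfs]
        simp only [D_add_left, D_add_right]
        rw [hDl e0, hDl p, hDl f0, hDl p', hDr e0, hDr p', hDr f0]
        ring
      rw [D_eq_rk he hf, D_eq_rk hf he, D_eq_rk he he, D_eq_rk hf hf, D_eq_rk he0e0 hf0f0,
        D_eq_rk hf0f0 he0e0, D_eq_rk he0e0 he0e0, D_eq_rk hf0f0 hf0f0] at h1
      exact_mod_cast h1
    refine ⟨by omega, fun h => ?_⟩
    obtain ⟨u, v, hu, hv, huv, hvu⟩ := heq (by omega)
    have hpe0 : p * e0 = 0 := by rw [he0, mul_sub, hpe, hpp, sub_self]
    have he0p : e0 * p = 0 := by rw [he0, sub_mul, hep, hpp, sub_self]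
    have hp'f0 : p' * f0 = 0 := by rw [hf0, mul_sub, hp'f, hp'p', sub_self]
    have hf0p' : f0 * p' = 0 := by rw [hf0, sub_mul, hfp', hp'p', sub_self]
    have hee0 : e * e0 = e0 := by rw [he0, mul_sub, he, hep]
    have he0e : e0 * e = e0 := by rw [he0, sub_mul, he, hpe]
    have hff0 : f * f0 = f0 := by rw [hf0, mul_sub, hf, hfp']
    have hf0f : f0 * f = f0 := by rw [hf0, sub_mul, hf, hp'f]
    have hx1v : x1 * v = 0 := by
      rw [← hx1p', ← hv, mul_assoc x1, ← mul_assoc p', ← mul_assoc p', hp'f0, zero_mul, zero_mul,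
        mul_zero]
    have huy1 : u * y1 = 0 := by
      rw [← hp'y1, ← hu, mul_assoc, ← mul_assoc f0 p' y1, hf0p', zero_mul, mul_zero]
    have hy1u : y1 * u = 0 := by
      rw [← hy1p, ← hu, mul_assoc y1, ← mul_assoc p, ← mul_assoc p, hpe0, zero_mul, zero_mul,
        mul_zero]
    have hvx1 : v * x1 = 0 := by
      rw [← hpx1, ← hv, mul_assoc, ← mul_assoc e0 p x1, he0p, zero_mul, mul_zero]
    refine ⟨x1 + u, y1 + v, ?_, ?_, ?_, ?_⟩
    · rw [mul_add, add_mul]
      congr 1
      · rw [mul_assoc, hx1f, ← hpx1, ← mul_assoc, hep]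
      · rw [← hu]
        calc e * (e0 * u * f0) * f = (e * e0) * u * (f0 * f) := by simp only [mul_assoc]
          _ = e0 * u * f0 := by rw [hee0, hf0f]
    · rw [mul_add, add_mul]
      congr 1
      · rw [hfy1, ← hy1p, mul_assoc, hpe]
      · rw [← hv]
        calc f * (f0 * v * e0) * e = (f * f0) * v * (e0 * e) := by simp only [mul_assoc]
          _ = f0 * v * e0 := by rw [hff0, he0e]
    · rw [add_mul, mul_add, mul_add, hx1y1, hx1v, huy1, huv, he0]
      abel
    · rw [add_mul, mul_add, mul_add, ← hp', hy1u, hvx1, hvu, hf0]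
      abel

/-- The inequality of the ranks. -/
theorem rk_le {e f : A} (he : e * e = e) (hf : f * f = f) :
    rk e f + rk f e ≤ rk e e + rk f f := (main _ e f he hf rfl).1

/-- The case of equality. -/
theorem rk_eq_iff {e f : A} (he : e * e = e) (hf : f * f = f) :
    rk e f + rk f e = rk e e + rk f f ↔ Eqv e f := by
  refine ⟨(main _ e f he hf rfl).2, ?_⟩
  rintro ⟨x, y, -, -, hxy, hyx⟩
  have hl : ∀ g, D e g = D f g := fun g => by rw [← hxy, ← hyx, D_comm_left]
  have hr : ∀ g, D g e = D g f := fun g => by rw [← hxy, ← hyx, D_comm_right]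
  have h1 : D e f + D f e = D e e + D f f := by rw [hl f, ← hl e, add_comm]
  rw [D_eq_rk he hf, D_eq_rk hf he, D_eq_rk he he, D_eq_rk hf hf] at h1
  exact_mod_cast h1

end Pool.Agent.Q56.BR
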